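import Mathlib
import Pool.Agent.SZG.StmtsM

set_option autoImplicit false

/-! Row FEX of the squad SZG: the exact products are short. -/

namespace Pool.Agent.SZG.H95

open scoped BigOperators
open Pool.Agent.THS Pool.Agent.SZG

theorem v_sgn {K : Type} [Field K] (v : AbsoluteValue K ℝ) {g : ℕ} (b c : Ch g) :
    v (sgn b c : K) = 1 := by
  unfold sgn
  push_cast
  rw [map_pow, AbsoluteValue.map_neg, map_one, one_pow]

theorem le_nv {K ι : Type} [Field K] [Finite ι] (v : AbsoluteValue K ℝ) (x : ι → K) (i : ι) :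
    v (x i) ≤ nv v x :=
  le_ciSup (Set.finite_range fun i => v (x i)).bddAbove i

theorem add_add_self {g : ℕ} (a d : Ch g) : a + d + d = a := by
  funext i
  have h : ∀ x y : ZMod 2, x + y + y = x := by decide
  exact h (a i) (d i)

theorem short_sum {K ι : Type} [Field K] (shm : ShmStatement) (v : AbsoluteValue K ℝ)
    (hv : IsNonarchimedean v) (F : ι → ℤ → ℤ → K) (S : Finset ι)
    (h : ∀ b ∈ S, Short v 1 0 (F b)) : Short v S.card 0 (fun i j => ∑ b ∈ S, F b i j) := by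
  classical
  induction S using Finset.induction_on with
  | empty =>
    refine ⟨fun _ _ => 0, fun _ _ => 0, ?_, ?_, ?_⟩
    · intro s i
      simp
    · intro s i
      simp
    · intro i j
      simp
  | insert a S ha ih =>
    have h1 := ih (fun b hb => h b (Finset.mem_insert_of_mem hb))
    have h2 := h a (Finset.mem_insert_self a S)
    have h3 := (shm K v hv).2.1 S.card 1 0 _ _ h1 h2
    rw [Finset.card_insert_of_notMem ha]
    have e : (fun i j => ∑ b ∈ insert a S, F b i j) =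
        (fun i j => (fun i j => ∑ b ∈ S, F b i j) i j + F a i j) := by
      funext i j
      rw [Finset.sum_insert ha, add_comm]
    rw [e]
    exact h3

/-- the denominator of `fn` -/
noncomputable def Dn {K I : Type} [Field K] [AddCommGroup I] {g : ℕ} (T : I → Ch g → K) (A R : K)
    (Z : I) (o : ℤ → Ch g) (k u : ℤ) : K :=
  A ^ (4 * u ^ 2) * R ^ (k * u) * T (k • Z) (o k)

theorem Dn_mul {K I : Type} [Field K] [AddCommGroup I] {g : ℕ} (T : I → Ch g → K) {A R : K}
    (hA : A ≠ 0) (hR : R ≠ 0) (Z : I) (o : ℤ → Ch g) (k w u : ℤ) :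
    Dn T A R Z o (k + w) u * Dn T A R Z o (k - w) (-u) =
      (T ((k + w) • Z) (o (k + w)) * T ((k - w) • Z) (o (k - w))) *
        (A ^ (8 * u ^ 2) * R ^ (2 * w * u)) := by
  unfold Dn
  have e1 : A ^ (8 * u ^ 2) = A ^ (4 * u ^ 2) * A ^ (4 * (-u) ^ 2) := by
    rw [← zpow_add₀ hA]
    congr 1
    ring
  have e2 : R ^ (2 * w * u) = R ^ ((k + w) * u) * R ^ ((k - w) * (-u)) := by
    rw [← zpow_add₀ hR]
    congr 1
    ring
  rw [e1, e2]
  ring

theorem short_P {K I : Type} [Field K] [AddCommGroup I] (mxv : MxvStatement)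
    {v : AbsoluteValue K ℝ} {ρ : ℝ} {g : ℕ} (s : K) (T : I → Ch g → K) (x : I → Ch g × Ch g → K)
    (Z δ : I) (A R : K) (o : ℤ → Ch g) (hρ : 0 < ρ) (hρ1 : ρ < 1) (hd : ∀ y : K, v y < 1 → v y ≤ ρ)
    (hA : A ≠ 0) (hR : R ≠ 0) (w : ℤ) (q : Ch g × Ch g)
    (hle : ∀ k u : ℤ, v (s * (x (k • Z) q * x (w • Z + (2 * u) • δ) q) /
      (Dn T A R Z o (k + w) u * Dn T A R Z o (k - w) (-u))) ≤ 1) :
    Short v 1 0 (fun k u => s * (x (k • Z) q * x (w • Z + (2 * u) • δ) q) /
      (Dn T A R Z o (k + w) u * Dn T A R Z o (k - w) (-u))) := by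
  apply mxv K v ρ _ hρ hρ1 hd hle
  have e : ∀ k u : ℤ, s * (x (k • Z) q * x (w • Z + (2 * u) • δ) q) /
      (Dn T A R Z o (k + w) u * Dn T A R Z o (k - w) (-u)) =
      (s * x (k • Z) q / (T ((k + w) • Z) (o (k + w)) * T ((k - w) • Z) (o (k - w)))) *
        (x (w • Z + (2 * u) • δ) q / (A ^ (8 * u ^ 2) * R ^ (2 * w * u))) := by
    intro k u
    rw [Dn_mul T hA hR, div_mul_div_comm]
    congr 1
    ring
  intro i j k l
  simp only [e]
  ring

theorem fex (rgi : RgiStmt) (xub : XubStmt) (wxc : WxcStmt) (fnb : FnbStmt)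
    (mxv : MxvStatement) (shm : ShmStatement) : FexStmt := by
  intro K I _ _ v θ ρ g E L0 c e s T x W X Z δ A R o hρ hρ1 hdis hL hA hR hvA hvR hnf ho w a d
  have hv := hL.na
  have hfnb := fnb K I v θ g E L0 c e s T x W X Z δ A R o hL hvA hvR hnf ho
  have hxub := xub K I v g E L0 c e s T x W X hL.qs hL.wx hv hL.v2
  have hwxc := wxc K I v L0 c e W X hL.wx
  obtain ⟨-, -, -, -, -, hW, -⟩ := hwxc
  have h2 : (2 : K) ≠ 0 := by
    intro h0
    have h1 := hL.v2
    rw [h0, map_zero] at h1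
    exact zero_ne_one h1
  have h2g : (2 : K) ^ g ≠ 0 := pow_ne_zero g h2
  have hT0 : 0 < nv v (T 0) := by
    have h1 := hL.qs.T0 0
    obtain ⟨b, hb⟩ : ∃ b, T 0 b ≠ 0 := by
      by_contra hcon
      push Not at hcon
      exact h1 (funext hcon)
    exact lt_of_lt_of_le (v.pos hb) (le_nv v (T 0) b)
  have hDv : ∀ k u : ℤ, v (Dn T A R Z o k u) = nv v (T 0) * W (k • Z + (2 * u) • δ) :=
    fun k u => (hfnb k u).1
  have hDne : ∀ k u : ℤ, Dn T A R Z o k u ≠ 0 := by
    intro k u h0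
    have h1 := hDv k u
    rw [h0, map_zero] at h1
    have h3 := mul_pos hT0 (hL.wx.pos (k • Z + (2 * u) • δ))
    linarith
  have eadd : ∀ k u : ℤ, k • Z + (w • Z + (2 * u) • δ) = (k + w) • Z + (2 * u) • δ := by
    intro k u
    rw [add_smul]
    abel
  have esub : ∀ k u : ℤ, k • Z - (w • Z + (2 * u) • δ) = (k - w) • Z + (2 * (-u)) • δ := by
    intro k u
    rw [sub_smul, mul_neg, neg_smul]
    abel
  have hle : ∀ (q : Ch g × Ch g) (k u : ℤ), v (s * (x (k • Z) q * x (w • Z + (2 * u) • δ) q) /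
      (Dn T A R Z o (k + w) u * Dn T A R Z o (k - w) (-u))) ≤ 1 := by
    intro q k u
    have h3 := (hxub (k • Z) (w • Z + (2 * u) • δ)).2.2.1
    have h4 := hW (k • Z) (w • Z + (2 * u) • δ)
    rw [eadd, esub] at h4
    rw [map_div₀, map_mul, map_mul, map_mul, hDv, hDv]
    have hpos : 0 < nv v (T 0) * W ((k + w) • Z + (2 * u) • δ) *
        (nv v (T 0) * W ((k - w) • Z + (2 * (-u)) • δ)) :=
      mul_pos (mul_pos hT0 (hL.wx.pos _)) (mul_pos hT0 (hL.wx.pos _))
    rw [div_le_one hpos]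
    have h5 : v s * (v (x (k • Z) q) * v (x (w • Z + (2 * u) • δ) q)) ≤
        v s * (nv v (x (k • Z)) * nv v (x (w • Z + (2 * u) • δ))) := by
      apply mul_le_mul_of_nonneg_left _ (apply_nonneg v s)
      exact mul_le_mul (le_nv v _ q) (le_nv v _ q) (apply_nonneg v _)
        ((apply_nonneg v _).trans (le_nv v (x (k • Z)) q))
    refine h5.trans (h3.trans (le_of_eq ?_))
    calc nv v (T 0) ^ 2 * W (k • Z) ^ 2 * W (w • Z + (2 * u) • δ) ^ 2
        = nv v (T 0) ^ 2 * (W (k • Z) ^ 2 * W (w • Z + (2 * u) • δ) ^ 2) := by ring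
      _ = nv v (T 0) ^ 2 *
          (W ((k + w) • Z + (2 * u) • δ) * W ((k - w) • Z + (2 * (-u)) • δ)) := by rw [← h4]
      _ = _ := by ring
  have hS : ∀ b : Ch g, Short v 1 0 (fun k u => ((sgn b a : K) / 2 ^ g) *
      (s * (x (k • Z) (a + d, b) * x (w • Z + (2 * u) • δ) (a + d, b)) /
      (Dn T A R Z o (k + w) u * Dn T A R Z o (k - w) (-u)))) := by
    intro b
    apply (shm K v hv).2.2.1 1 0 ((sgn b a : K) / 2 ^ g) _ le_rfl
    · rw [map_div₀, map_pow, hL.v2, one_pow, div_one, v_sgn]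
    · exact short_P mxv s T x Z δ A R o hρ hρ1 hdis hA hR w (a + d, b) (hle (a + d, b))
  have hsum := short_sum shm v hv _ (Finset.univ : Finset (Ch g)) (fun b _ => hS b)
  have hcard : (Finset.univ : Finset (Ch g)).card = 2 ^ g := by
    rw [Finset.card_univ, Fintype.card_fun, ZMod.card, Fintype.card_fin]
  rw [hcard] at hsum
  have efin : (fun k u => fn T A R Z δ o (k + w) u a * fn T A R Z δ o (k - w) (-u) d) =
      (fun k u => ∑ b : Ch g, ((sgn b a : K) / 2 ^ g) *
        (s * (x (k • Z) (a + d, b) * x (w • Z + (2 * u) • δ) (a + d, b)) /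
        (Dn T A R Z o (k + w) u * Dn T A R Z o (k - w) (-u)))) := by
    funext k u
    have h1 := rgi g K I T (a + d) d (k • Z) (w • Z + (2 * u) • δ)
    rw [add_add_self, eadd, esub] at h1
    have h3 : ∑ b : Ch g, ((sgn b a : K) / 2 ^ g) *
        (s * (x (k • Z) (a + d, b) * x (w • Z + (2 * u) • δ) (a + d, b)) /
        (Dn T A R Z o (k + w) u * Dn T A R Z o (k - w) (-u))) =
        (∑ b : Ch g, (sgn b a : K) * RG T (a + d) b (k • Z) (w • Z + (2 * u) • δ)) *
          ((2 ^ g)⁻¹ * (Dn T A R Z o (k + w) u * Dn T A R Z o (k - w) (-u))⁻¹) := by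
      rw [Finset.sum_mul]
      refine Finset.sum_congr rfl (fun b _ => ?_)
      rw [hL.qs.rie]
      ring
    rw [h3, h1]
    unfold fn
    have hd1 := hDne (k + w) u
    have hd2 := hDne (k - w) (-u)
    have e1 : A ^ (4 * u ^ 2) * R ^ ((k + w) * u) * T ((k + w) • Z) (o (k + w)) =
        Dn T A R Z o (k + w) u := rfl
    have e2 : A ^ (4 * (-u) ^ 2) * R ^ ((k - w) * (-u)) * T ((k - w) • Z) (o (k - w)) =
        Dn T A R Z o (k - w) (-u) := rfl
    rw [e1, e2]
    field_simp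
  rw [efin]
  exact hsum

end Pool.Agent.SZG.H95
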