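import Mathlib
import Pool.Agent.SZG.StmtsD
import Pool.Agent.Helper27_THS.SHM

set_option autoImplicit false

/-! Row ZKS of the squad SZG: the function `ζ ^ (k s)` is short. -/

namespace Pool.Agent.SZG.H95

open scoped BigOperators
open Pool.Agent.THS (Short)
open Pool.Agent.THS.H27 (short_of_fintype)

theorem v_sum_le {K : Type} [Field K] (v : AbsoluteValue K ℝ) (hv : IsNonarchimedean v)
    {α : Type} (S : Finset α) (g : α → K) (C : ℝ) (hC : 0 ≤ C) (h : ∀ a ∈ S, v (g a) ≤ C) :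
    v (∑ a ∈ S, g a) ≤ C := by
  classical
  induction S using Finset.induction_on with
  | empty => simpa using hC
  | insert a S ha ih =>
    rw [Finset.sum_insert ha]
    refine (hv _ _).trans (max_le (h a (Finset.mem_insert_self a S)) ?_)
    exact ih (fun b hb => h b (Finset.mem_insert_of_mem hb))

theorem v_nat_le {K : Type} [Field K] (v : AbsoluteValue K ℝ) (hv : IsNonarchimedean v) (n : ℕ) :
    v (n : K) ≤ 1 := by
  induction n with
  | zero => simp
  | succ n ih =>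
    rw [Nat.cast_succ]
    refine (hv _ _).trans (max_le ih ?_)
    rw [map_one]

theorem v_eq_one {K : Type} [Field K] (v : AbsoluteValue K ℝ) (hv : IsNonarchimedean v) {θ : ℝ}
    (hθ : θ < 1) {ζ : K} (h : v (ζ - 1) ≤ θ) : v ζ = 1 := by
  apply le_antisymm
  · have h1 := hv (ζ - 1) 1
    rw [sub_add_cancel, map_one] at h1
    exact h1.trans (max_le (h.trans hθ.le) le_rfl)
  · by_contra hcon
    push Not at hcon
    have h1 := hv ζ (-(ζ - 1))
    have e : ζ + -(ζ - 1) = 1 := by ring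
    rw [e, map_one, AbsoluteValue.map_neg] at h1
    have h2 : max (v ζ) (v (ζ - 1)) < 1 := max_lt hcon (lt_of_le_of_lt h hθ)
    exact absurd h1 (not_le.2 h2)

theorem v_npow_sub {K : Type} [Field K] (v : AbsoluteValue K ℝ) (hv : IsNonarchimedean v) {θ : ℝ}
    (h0 : 0 < θ) (hθ : θ < 1) {ζ : K} (h : v (ζ - 1) ≤ θ) (n : ℕ) : v (ζ ^ n - 1) ≤ θ := by
  induction n with
  | zero => simpa using h0.le
  | succ n ih =>
    have e : ζ ^ (n + 1) - 1 = ζ ^ n * (ζ - 1) + (ζ ^ n - 1) := by ring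
    rw [e]
    refine (hv _ _).trans (max_le ?_ ih)
    rw [map_mul, map_pow, v_eq_one v hv hθ h, one_pow, one_mul]
    exact h

theorem v_zpow_sub {K : Type} [Field K] (v : AbsoluteValue K ℝ) (hv : IsNonarchimedean v) {θ : ℝ}
    (h0 : 0 < θ) (hθ : θ < 1) {ζ : K} (h : v (ζ - 1) ≤ θ) (s : ℤ) : v (ζ ^ s - 1) ≤ θ := by
  have h1 := v_eq_one v hv hθ h
  have hne : ζ ≠ 0 := by
    intro h2
    rw [h2, map_zero] at h1
    exact zero_ne_one h1
  rcases Int.eq_nat_or_neg s with ⟨n, rfl | rfl⟩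
  · rw [zpow_natCast]
    exact v_npow_sub v hv h0 hθ h n
  · rw [zpow_neg, zpow_natCast]
    have hp : ζ ^ n ≠ 0 := pow_ne_zero n hne
    have e : (ζ ^ n)⁻¹ - 1 = -((ζ ^ n)⁻¹ * (ζ ^ n - 1)) := by
      field_simp
      ring
    rw [e, AbsoluteValue.map_neg, map_mul, map_inv₀, map_pow, h1, one_pow, inv_one, one_mul]
    exact v_npow_sub v hv h0 hθ h n

theorem v_binom {K : Type} [Field K] (v : AbsoluteValue K ℝ) (hv : IsNonarchimedean v) {θ : ℝ}
    (h0 : 0 < θ) (hθ : θ < 1) {x : K} (h : v (x - 1) ≤ θ) (L n : ℕ) :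
    v (x ^ n - ∑ j : Fin L, (n.choose (j : ℕ) : K) * (x - 1) ^ (j : ℕ)) ≤ θ ^ L := by
  have e1 : x ^ n = ∑ m ∈ Finset.range (n + 1), (n.choose m : K) * (x - 1) ^ m := by
    have h1 := add_pow (x - 1) 1 n
    rw [sub_add_cancel] at h1
    rw [h1]
    refine Finset.sum_congr rfl (fun m _ => ?_)
    rw [one_pow, mul_one, mul_comm]
  have e2 : ∑ m ∈ Finset.range (L + (n + 1)), (n.choose m : K) * (x - 1) ^ m = x ^ n := by
    rw [e1]
    symm
    apply Finset.sum_subset
    · intro m hm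
      rw [Finset.mem_range] at hm ⊢
      omega
    · intro m _ hm2
      rw [Finset.mem_range] at hm2
      rw [Nat.choose_eq_zero_of_lt (by omega), Nat.cast_zero, zero_mul]
  rw [Finset.sum_range_add] at e2
  have e3 : x ^ n - ∑ j : Fin L, (n.choose (j : ℕ) : K) * (x - 1) ^ (j : ℕ) =
      ∑ m ∈ Finset.range (n + 1), (n.choose (L + m) : K) * (x - 1) ^ (L + m) := by
    rw [← e2, Finset.sum_range (fun m => (n.choose m : K) * (x - 1) ^ m)]
    ring
  rw [e3]
  apply v_sum_le v hv _ _ _ (pow_nonneg h0.le L)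
  intro m _
  rw [map_mul, map_pow]
  have h2 : v (x - 1) ^ (L + m) ≤ θ ^ L := by
    calc v (x - 1) ^ (L + m) ≤ θ ^ (L + m) := pow_le_pow_left₀ (apply_nonneg v _) h _
      _ ≤ θ ^ L := pow_le_pow_of_le_one h0.le hθ.le (Nat.le_add_right L m)
  calc v (n.choose (L + m) : K) * v (x - 1) ^ (L + m) ≤ 1 * θ ^ L :=
        mul_le_mul (v_nat_le v hv _) h2 (pow_nonneg (apply_nonneg v _) _) zero_le_one
    _ = θ ^ L := one_mul _

theorem zks : ZksStmt := by
  intro K _ v θ L ζ hv h0 hθ h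
  have hs : ∀ s : ℤ, v (ζ ^ s - 1) ≤ θ := v_zpow_sub v hv h0 hθ h
  have hpow : ∀ (s : ℤ) (j : ℕ), v ((ζ ^ s - 1) ^ j) ≤ 1 := by
    intro s j
    rw [map_pow]
    exact pow_le_one₀ (apply_nonneg v _) ((hs s).trans hθ.le)
  refine short_of_fintype v (ι := Fin L ⊕ Fin L) (by simp; omega)
    (Sum.elim (fun j k => if 0 ≤ k then ((k.toNat).choose (j : ℕ) : K) else 0)
      (fun j k => if 0 ≤ k then 0 else (((-k).toNat).choose (j : ℕ) : K)))
    (Sum.elim (fun j s => (ζ ^ s - 1) ^ (j : ℕ)) (fun j s => (ζ ^ (-s) - 1) ^ (j : ℕ))) ?_ ?_ ?_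
  · rintro (j | j) k
    · simp only [Sum.elim_inl]
      split_ifs
      · exact v_nat_le v hv _
      · simp
    · simp only [Sum.elim_inr]
      split_ifs
      · simp
      · exact v_nat_le v hv _
  · rintro (j | j) s
    · exact hpow s j
    · exact hpow (-s) j
  · intro k s
    rw [Fintype.sum_sum_type]
    simp only [Sum.elim_inl, Sum.elim_inr]
    by_cases hk : 0 ≤ k
    · simp only [if_pos hk, zero_mul, Finset.sum_const_zero, add_zero]
      obtain ⟨n, rfl⟩ := Int.eq_ofNat_of_zero_le hk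
      rw [zpow_mul', zpow_natCast, Int.toNat_natCast]
      exact v_binom v hv h0 hθ (hs s) L n
    · simp only [if_neg hk, zero_mul, Finset.sum_const_zero, zero_add]
      obtain ⟨n, hn⟩ := Int.eq_ofNat_of_zero_le (show 0 ≤ -k by omega)
      have e : k * s = (n : ℤ) * (-s) := by
        rw [show k = -(n : ℤ) by omega]
        ring
      rw [e, hn, zpow_mul', zpow_natCast, Int.toNat_natCast]
      exact v_binom v hv h0 hθ (hs (-s)) L n

end Pool.Agent.SZG.H95
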